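import Pool.Agent.W488.IW.Stm

/-! Project IW, part ODE: global solutions of the Galerkin system. -/

set_option autoImplicit false

namespace Pool.Agent.W136.IW.Ode

open Pool.Agent.W488.IW
open MeasureTheory Set Filter Topology
open scoped NNReal

/-! ### global solutions for bounded Lipschitz fields -/

theorem glob {E : Type} [NormedAddCommGroup E] [NormedSpace ℝ E] [CompleteSpace E]
    (f : E → E) (K M : ℝ≥0) (hl : LipschitzWith K f) (hb : ∀ x, ‖f x‖ ≤ M)
    (T : ℝ) (hT : 0 < T) (x0 : E) :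
    ∃ α : ℝ → E, α 0 = x0 ∧ ∀ t ∈ Icc (0 : ℝ) T, HasDerivWithinAt α (f (α t)) (Icc 0 T) t := by
  have h0 : (0 : ℝ) ∈ Icc (0 : ℝ) T := ⟨le_rfl, hT.le⟩
  have hp : IsPicardLindelof (fun _ => f) (⟨0, h0⟩ : Icc (0 : ℝ) T) x0
      (M * NNReal.mk T hT.le) 0 M K := by
    apply IsPicardLindelof.of_time_independent
    · intro x _
      exact hb x
    · exact hl.lipschitzOnWith
    · simp only [sub_zero, NNReal.coe_mul, NNReal.coe_mk, NNReal.coe_zero]
      rw [max_eq_left (by linarith)]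
  obtain ⟨α, h1, h2⟩ := hp.exists_eq_forall_mem_Icc_hasDerivWithinAt₀
  exact ⟨α, h1, h2⟩

/-! ### the clamp -/

noncomputable def cR (R : ℝ) (z : ℂ) : ℂ :=
  ⟨max (-R) (min R z.re), max (-R) (min R z.im)⟩

theorem clampR_lip (R x y : ℝ) :
    |max (-R) (min R x) - max (-R) (min R y)| ≤ |x - y| := by
  refine (abs_max_sub_max_le_max _ _ _ _).trans ?_
  refine max_le (by simp) ?_
  refine (abs_min_sub_min_le_max _ _ _ _).trans ?_
  exact max_le (by simp) le_rfl

theorem clampR_le (R x : ℝ) (hR : 0 ≤ R) : |max (-R) (min R x)| ≤ |x| := by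
  have h := clampR_lip R x 0
  have h0 : max (-R) (min R 0) = 0 := by
    rw [min_eq_right hR, max_eq_right (by linarith)]
  rwa [h0, sub_zero, sub_zero] at h

theorem clampR_bd (R x : ℝ) (hR : 0 ≤ R) : |max (-R) (min R x)| ≤ R := by
  rw [abs_le]
  refine ⟨le_max_left _ _, max_le (by linarith) (min_le_left _ _)⟩

theorem cR_lip (R : ℝ) (z w : ℂ) : ‖cR R z - cR R w‖ ≤ ‖z - w‖ := by
  rw [Complex.norm_def, Complex.norm_def]
  apply Real.sqrt_le_sqrt
  rw [Complex.normSq_apply, Complex.normSq_apply]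
  have h1 := clampR_lip R z.re w.re
  have h2 := clampR_lip R z.im w.im
  have h3 := abs_le_abs_of_nonneg (abs_nonneg _) h1
  have h4 := sq_le_sq' (by linarith [abs_nonneg (z.re - w.re), abs_nonneg (max (-R) (min R z.re) - max (-R) (min R w.re))]) h1
  have h5 := sq_le_sq' (by linarith [abs_nonneg (z.im - w.im), abs_nonneg (max (-R) (min R z.im) - max (-R) (min R w.im))]) h2
  rw [sq_abs, sq_abs] at h4 h5
  simp only [cR, Complex.sub_re, Complex.sub_im]
  nlinarith

theorem cR_le (R : ℝ) (hR : 0 ≤ R) (z : ℂ) : ‖cR R z‖ ≤ ‖z‖ := by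
  have := cR_lip R z 0
  have h0 : cR R 0 = 0 := by
    simp only [cR, Complex.zero_re, Complex.zero_im]
    rw [min_eq_right hR, max_eq_right (by linarith)]
    rfl
  rwa [h0, sub_zero, sub_zero] at this

theorem cR_bd (R : ℝ) (hR : 0 ≤ R) (z : ℂ) : ‖cR R z‖ ≤ 2 * R := by
  refine (Complex.norm_le_abs_re_add_abs_im _).trans ?_
  have h1 := clampR_bd R z.re hR
  have h2 := clampR_bd R z.im hR
  simp only [cR]
  linarith

theorem cR_eq (R : ℝ) (z : ℂ) (hz : ‖z‖ ≤ R) : cR R z = z := by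
  have h1 := abs_le.1 ((Complex.abs_re_le_norm z).trans hz)
  have h2 := abs_le.1 ((Complex.abs_im_le_norm z).trans hz)
  apply Complex.ext
  · simp only [cR]
    rw [min_eq_right h1.2, max_eq_right h1.1]
  · simp only [cR]
    rw [min_eq_right h2.2, max_eq_right h2.1]

theorem globC {ι : Type} [Fintype ι] (f : (ι → ℂ) → (ι → ℂ)) (C : ℝ) (hC : 0 ≤ C)
    (hb : ∀ v, ‖f v‖ ≤ C * ‖v‖)
    (hl : ∀ R : ℝ, 0 ≤ R → ∃ K : ℝ≥0, LipschitzOnWith K f (Metric.closedBall 0 R))
    (T : ℝ) (hT : 0 < T) (x0 : ι → ℂ) :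
    ∃ α : ℝ → (ι → ℂ), α 0 = x0 ∧
      ∀ t ∈ Icc (0 : ℝ) T, HasDerivWithinAt α (f (α t)) (Icc 0 T) t := by
  set R : ℝ := ‖x0‖ * Real.exp (C * T) with hRd
  have hR : 0 ≤ R := by positivity
  obtain ⟨K, hK⟩ := hl (2 * R) (by positivity)
  let π : (ι → ℂ) → (ι → ℂ) := fun v i => cR R (v i)
  have hπl : LipschitzWith 1 π := by
    apply LipschitzWith.of_dist_le_mul
    intro v w
    rw [NNReal.coe_one, one_mul, dist_pi_le_iff dist_nonneg]
    intro i
    rw [dist_eq_norm]
    refine (cR_lip R (v i) (w i)).trans ?_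
    rw [← dist_eq_norm]
    exact dist_le_pi_dist v w i
  have hπb : ∀ v, ‖π v‖ ≤ 2 * R := by
    intro v
    rw [pi_norm_le_iff_of_nonneg (by positivity)]
    intro i
    exact cR_bd R hR _
  have hπn : ∀ v, ‖π v‖ ≤ ‖v‖ := by
    intro v
    rw [pi_norm_le_iff_of_nonneg (norm_nonneg _)]
    intro i
    exact (cR_le R hR _).trans (norm_le_pi_norm v i)
  have hfl : LipschitzWith (K * 1) (fun v => f (π v)) := by
    have := hK.comp (s := univ) (hπl.lipschitzOnWith) (fun v _ => by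
      rw [Metric.mem_closedBall, dist_zero_right]; exact hπb v)
    rwa [lipschitzOnWith_univ] at this
  have hM : ∀ v, ‖f (π v)‖ ≤ ((NNReal.mk (C * (2 * R)) (by positivity) : ℝ≥0) : ℝ) := by
    intro v
    refine (hb _).trans ?_
    exact mul_le_mul_of_nonneg_left (hπb v) hC
  obtain ⟨α, h0, h1⟩ := glob (fun v => f (π v)) (K * 1) _ hfl hM T hT x0
  refine ⟨α, h0, ?_⟩
  have hcont : ContinuousOn α (Icc 0 T) := fun t ht => (h1 t ht).continuousWithinAt
  have hg := norm_le_gronwallBound_of_norm_deriv_right_le (f := α) (f' := fun t => f (π (α t)))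
    (δ := ‖x0‖) (K := C) (ε := 0) (a := 0) (b := T) hcont
    (fun t ht => by
      have := h1 t ⟨ht.1, ht.2.le⟩
      exact (this.mono_of_mem_nhdsWithin (Icc_mem_nhdsGE_of_mem ht)))
    (by rw [h0])
    (fun t _ => by
      rw [add_zero]
      exact (hb _).trans (mul_le_mul_of_nonneg_left (hπn _) hC))
  intro t ht
  have h2 := hg t ht
  rw [gronwallBound_ε0, sub_zero] at h2
  have h3 : ‖α t‖ ≤ R := by
    refine h2.trans ?_
    apply mul_le_mul_of_nonneg_left _ (norm_nonneg _)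
    exact Real.exp_le_exp.2 (mul_le_mul_of_nonneg_left ht.2 hC)
  have h4 : π (α t) = α t := by
    funext i
    exact cR_eq R _ ((norm_le_pi_norm (α t) i).trans h3)
  have := h1 t ht
  simp only [h4] at this
  exact this

/-! ### the Galerkin field -/

section field

variable {H : Type} [NormedAddCommGroup H] [InnerProductSpace ℂ H] [CompleteSpace H]

/-- extension by zero -/
noncomputable def ext (N : ℕ) (v : {k // k ∈ box N} → ℂ) (k : Idx) : ℂ :=
  if h : k ∈ box N then v ⟨k, h⟩ else 0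

theorem ext_mem (N : ℕ) (v : {k // k ∈ box N} → ℂ) (k : Idx) (h : k ∈ box N) :
    ext N v k = v ⟨k, h⟩ := by
  simp [ext, h]

theorem ext_not (N : ℕ) (v : {k // k ∈ box N} → ℂ) (k : Idx) (h : k ∉ box N) :
    ext N v k = 0 := by
  simp [ext, h]

theorem ext_le (N : ℕ) (v : {k // k ∈ box N} → ℂ) (k : Idx) : ‖ext N v k‖ ≤ ‖v‖ := by
  by_cases h : k ∈ box N
  · rw [ext_mem N v k h]; exact norm_le_pi_norm v _
  · rw [ext_not N v k h, norm_zero]; exact norm_nonneg _

theorem ext_sub (N : ℕ) (v w : {k // k ∈ box N} → ℂ) (k : Idx) :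
    ext N v k - ext N w k = ext N (v - w) k := by
  by_cases h : k ∈ box N
  · rw [ext_mem N v k h, ext_mem N w k h, ext_mem N _ k h]; rfl
  · rw [ext_not N v k h, ext_not N w k h, ext_not N _ k h, sub_zero]

/-- total weight -/
noncomputable def W (N : ℕ) (w : Idx → ℂ) : ℝ := ∑ k ∈ box N, ‖w k‖

theorem W_nonneg (N : ℕ) (w : Idx → ℂ) : 0 ≤ W N w := Finset.sum_nonneg fun _ _ => norm_nonneg _

theorem norm_e (D : Dat H) (k : Idx) : ‖D.e k‖ = 1 := by
  have := D.e.orthonormal.norm_eq_one k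
  exact this

theorem sm_sub (D : Dat H) (N : ℕ) (w : Idx → ℂ) (u v : {k // k ∈ box N} → ℂ) :
    sm D (box N) w (ext N u) - sm D (box N) w (ext N v) = sm D (box N) w (ext N (u - v)) := by
  unfold sm
  rw [← Finset.sum_sub_distrib]
  refine Finset.sum_congr rfl fun k _ => ?_
  rw [← sub_smul, ← mul_sub, ext_sub]

theorem sm_le (D : Dat H) (N : ℕ) (w : Idx → ℂ) (u : {k // k ∈ box N} → ℂ) :
    ‖sm D (box N) w (ext N u)‖ ≤ W N w * ‖u‖ := by
  unfold sm W
  refine (norm_sum_le _ _).trans ?_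
  rw [Finset.sum_mul]
  refine Finset.sum_le_sum fun k _ => ?_
  rw [norm_smul, norm_e, mul_one, norm_mul]
  exact mul_le_mul_of_nonneg_left (ext_le N u k) (norm_nonneg _)

theorem adj_le (D : Dat H) (a b r : H) : ‖(D.s a b).adjoint r‖ ≤ ‖r‖ := by
  refine ((D.s a b).adjoint.le_opNorm r).trans ?_
  rw [LinearIsometryEquiv.norm_map]
  calc _ ≤ 1 * ‖r‖ := mul_le_mul_of_nonneg_right (D.h1 a b) (norm_nonneg _)
    _ = ‖r‖ := one_mul _

theorem s_le (D : Dat H) (a b r : H) : ‖D.s a b r‖ ≤ ‖r‖ := by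
  refine ((D.s a b).le_opNorm r).trans ?_
  calc _ ≤ 1 * ‖r‖ := mul_le_mul_of_nonneg_right (D.h1 a b) (norm_nonneg _)
    _ = ‖r‖ := one_mul _

/-- the field on the coefficients in the box -/
noncomputable def G (D : Dat H) (N : ℕ) (v : {k // k ∈ box N} → ℂ) : {k // k ∈ box N} → ℂ :=
  fun k => inner ℂ (D.e k.1 : H) (VN D (box N) (ext N v))

theorem VN_le (D : Dat H) (N : ℕ) (v : {k // k ∈ box N} → ℂ) :
    ‖VN D (box N) (ext N v)‖ ≤ (|D.n| * W N (fun k => ka k * kb k) + W N (fun k => ka k ^ 2)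
      + W N (fun k => kb k ^ 2)) * ‖v‖ := by
  unfold VN Vf
  refine (norm_add_le _ _).trans ?_
  refine (add_le_add (norm_add_le _ _) (adj_le D _ _ _)).trans ?_
  have h1 := s_le D (sm D (box N) ka (ext N v)) (sm D (box N) kb (ext N v))
    (sm D (box N) (fun k => ka k ^ 2) (ext N v))
  have h2 := sm_le D N (fun k => ka k ^ 2) v
  have h3 := sm_le D N (fun k => kb k ^ 2) v
  have h4 := sm_le D N (fun k => ka k * kb k) v
  have h5 : ‖(D.n : ℂ) • sm D (box N) (fun k => ka k * kb k) (ext N v)‖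
      ≤ |D.n| * (W N (fun k => ka k * kb k) * ‖v‖) := by
    rw [norm_smul, Complex.norm_real, Real.norm_eq_abs]
    exact mul_le_mul_of_nonneg_left h4 (abs_nonneg _)
  linarith

theorem s_lip (D : Dat H) (N : ℕ) (w : Idx → ℂ) (a b a' b' : H) (u v : {k // k ∈ box N} → ℂ) :
    ‖D.s a b (sm D (box N) w (ext N u)) - D.s a' b' (sm D (box N) w (ext N v))‖
      ≤ W N w * ‖u - v‖ + W N w * ‖v‖ * (|D.L| * (‖a - a'‖ + ‖b - b'‖)) := by
  have h1 : D.s a b (sm D (box N) w (ext N u)) - D.s a' b' (sm D (box N) w (ext N v))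
      = D.s a b (sm D (box N) w (ext N (u - v)))
        + (D.s a b (sm D (box N) w (ext N v)) - D.s a' b' (sm D (box N) w (ext N v))) := by
    rw [← sm_sub, map_sub]; abel
  rw [h1]
  refine (norm_add_le _ _).trans ?_
  refine add_le_add ((s_le D _ _ _).trans (sm_le D N w _)) ?_
  unfold sm
  rw [map_sum, map_sum, ← Finset.sum_sub_distrib]
  refine (norm_sum_le _ _).trans ?_
  unfold W
  rw [Finset.sum_mul, Finset.sum_mul]
  refine Finset.sum_le_sum fun k _ => ?_
  rw [map_smul, map_smul, ← smul_sub, norm_smul, norm_mul]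
  apply mul_le_mul
  · exact mul_le_mul_of_nonneg_left (ext_le N v k) (norm_nonneg _)
  · refine (D.h2 a b a' b' k).trans ?_
    exact mul_le_mul_of_nonneg_right (le_abs_self _) (by positivity)
  · exact norm_nonneg _
  · positivity

theorem adj_lip (D : Dat H) (N : ℕ) (w : Idx → ℂ) (a b a' b' : H) (u v : {k // k ∈ box N} → ℂ) :
    ‖(D.s a b).adjoint (sm D (box N) w (ext N u))
        - (D.s a' b').adjoint (sm D (box N) w (ext N v))‖
      ≤ W N w * ‖u - v‖ + W N w * ‖v‖ * (|D.L| * (‖a - a'‖ + ‖b - b'‖)) := by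
  have h1 : (D.s a b).adjoint (sm D (box N) w (ext N u))
        - (D.s a' b').adjoint (sm D (box N) w (ext N v))
      = (D.s a b).adjoint (sm D (box N) w (ext N (u - v)))
        + ((D.s a b).adjoint (sm D (box N) w (ext N v))
          - (D.s a' b').adjoint (sm D (box N) w (ext N v))) := by
    rw [← sm_sub, map_sub]; abel
  rw [h1]
  refine (norm_add_le _ _).trans ?_
  refine add_le_add ((adj_le D _ _ _).trans (sm_le D N w _)) ?_
  unfold sm
  rw [map_sum, map_sum, ← Finset.sum_sub_distrib]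
  refine (norm_sum_le _ _).trans ?_
  unfold W
  rw [Finset.sum_mul, Finset.sum_mul]
  refine Finset.sum_le_sum fun k _ => ?_
  rw [map_smul, map_smul, ← smul_sub, norm_smul, norm_mul]
  apply mul_le_mul
  · exact mul_le_mul_of_nonneg_left (ext_le N v k) (norm_nonneg _)
  · refine (D.h3 a b a' b' k).trans ?_
    exact mul_le_mul_of_nonneg_right (le_abs_self _) (by positivity)
  · exact norm_nonneg _
  · positivity

theorem G_le (D : Dat H) (N : ℕ) (v : {k // k ∈ box N} → ℂ) :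
    ‖G D N v‖ ≤ (|D.n| * W N (fun k => ka k * kb k) + W N (fun k => ka k ^ 2)
      + W N (fun k => kb k ^ 2)) * ‖v‖ := by
  have h0 := VN_le D N v
  rw [pi_norm_le_iff_of_nonneg ((norm_nonneg _).trans h0)]
  intro k
  refine (norm_inner_le_norm _ _).trans ?_
  rw [norm_e, one_mul]
  exact h0

theorem VN_lip (D : Dat H) (N : ℕ) (R : ℝ) (u v : {k // k ∈ box N} → ℂ) (hv : ‖v‖ ≤ R) :
    ‖VN D (box N) (ext N u) - VN D (box N) (ext N v)‖
      ≤ (|D.n| * W N (fun k => ka k * kb k)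
        + (W N (fun k => ka k ^ 2) + W N (fun k => ka k ^ 2) * R * (|D.L| * (W N ka + W N kb)))
        + (W N (fun k => kb k ^ 2) + W N (fun k => kb k ^ 2) * R * (|D.L| * (W N ka + W N kb))))
        * ‖u - v‖ := by
  have hR : 0 ≤ R := (norm_nonneg _).trans hv
  have e1 : ‖sm D (box N) ka (ext N u) - sm D (box N) ka (ext N v)‖ ≤ W N ka * ‖u - v‖ := by
    rw [sm_sub]; exact sm_le D N ka _
  have e2 : ‖sm D (box N) kb (ext N u) - sm D (box N) kb (ext N v)‖ ≤ W N kb * ‖u - v‖ := by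
    rw [sm_sub]; exact sm_le D N kb _
  have e3 : ∀ w : Idx → ℂ, W N w * ‖u - v‖ + W N w * ‖v‖ *
      (|D.L| * (‖sm D (box N) ka (ext N u) - sm D (box N) ka (ext N v)‖
        + ‖sm D (box N) kb (ext N u) - sm D (box N) kb (ext N v)‖))
      ≤ (W N w + W N w * R * (|D.L| * (W N ka + W N kb))) * ‖u - v‖ := by
    intro w
    have h1 : |D.L| * (‖sm D (box N) ka (ext N u) - sm D (box N) ka (ext N v)‖
        + ‖sm D (box N) kb (ext N u) - sm D (box N) kb (ext N v)‖)
        ≤ |D.L| * (W N ka * ‖u - v‖ + W N kb * ‖u - v‖) :=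
      mul_le_mul_of_nonneg_left (add_le_add e1 e2) (abs_nonneg _)
    have h2 : W N w * ‖v‖ ≤ W N w * R := mul_le_mul_of_nonneg_left hv (W_nonneg N w)
    have h3 := mul_le_mul h2 h1 (by positivity) (mul_nonneg (W_nonneg N w) hR)
    calc _ ≤ W N w * ‖u - v‖ + W N w * R * (|D.L| * (W N ka * ‖u - v‖ + W N kb * ‖u - v‖)) := by
          linarith
      _ = _ := by ring
  have h1 := (s_lip D N (fun k => ka k ^ 2) (sm D (box N) ka (ext N u)) (sm D (box N) kb (ext N u))
    (sm D (box N) ka (ext N v)) (sm D (box N) kb (ext N v)) u v).trans (e3 _)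
  have h2 := (adj_lip D N (fun k => kb k ^ 2) (sm D (box N) ka (ext N u))
    (sm D (box N) kb (ext N u)) (sm D (box N) ka (ext N v)) (sm D (box N) kb (ext N v)) u v).trans
    (e3 _)
  have h3 : ‖(D.n : ℂ) • sm D (box N) (fun k => ka k * kb k) (ext N u)
      - (D.n : ℂ) • sm D (box N) (fun k => ka k * kb k) (ext N v)‖
      ≤ |D.n| * W N (fun k => ka k * kb k) * ‖u - v‖ := by
    rw [← smul_sub, sm_sub, norm_smul, Complex.norm_real, Real.norm_eq_abs, mul_assoc]
    exact mul_le_mul_of_nonneg_left (sm_le D N _ _) (abs_nonneg _)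
  unfold VN Vf
  have h4 : ∀ a b c a' b' c' : H, a + b + c - (a' + b' + c') = (a - a') + (b - b') + (c - c') := by
    intro a b c a' b' c'; abel
  rw [h4]
  refine (norm_add_le _ _).trans ?_
  refine (add_le_add (norm_add_le _ _) le_rfl).trans ?_
  rw [add_mul, add_mul]
  exact add_le_add (add_le_add h3 h1) h2

theorem G_lip (D : Dat H) (N : ℕ) (R : ℝ) (hR : 0 ≤ R) :
    ∃ K : ℝ≥0, LipschitzOnWith K (G D N) (Metric.closedBall 0 R) := by
  have n1 := W_nonneg N (fun k => ka k * kb k)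
  have n2 := W_nonneg N (fun k => ka k ^ 2)
  have n3 := W_nonneg N (fun k => kb k ^ 2)
  have n4 := W_nonneg N ka
  have n5 := W_nonneg N kb
  refine ⟨NNReal.mk (|D.n| * W N (fun k => ka k * kb k)
        + (W N (fun k => ka k ^ 2) + W N (fun k => ka k ^ 2) * R * (|D.L| * (W N ka + W N kb)))
        + (W N (fun k => kb k ^ 2) + W N (fun k => kb k ^ 2) * R * (|D.L| * (W N ka + W N kb))))
        (by positivity), ?_⟩
  apply LipschitzOnWith.of_dist_le_mul
  intro u _ v hv
  rw [Metric.mem_closedBall, dist_zero_right] at hv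
  rw [dist_eq_norm, dist_eq_norm, NNReal.coe_mk]
  have h0 := VN_lip D N R u v hv
  rw [pi_norm_le_iff_of_nonneg ((norm_nonneg _).trans h0)]
  intro k
  have : (G D N u - G D N v) k
      = inner ℂ (D.e k.1 : H) (VN D (box N) (ext N u) - VN D (box N) (ext N v)) := by
    rw [inner_sub_right]; rfl
  rw [this]
  refine (norm_inner_le_norm _ _).trans ?_
  rw [norm_e, one_mul]
  exact h0

end field

theorem main : S_ODE := by
  intro H _ _ _ D N T c0 hT hc0
  obtain ⟨α, h0, h1⟩ := globC (G D N) _ (by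
      have n1 := W_nonneg N (fun k => ka k * kb k)
      have n2 := W_nonneg N (fun k => ka k ^ 2)
      have n3 := W_nonneg N (fun k => kb k ^ 2)
      positivity) (G_le D N) (G_lip D N) T hT (fun k => c0 k.1)
  refine ⟨fun t => ext N (α t), ?_, ?_, ?_⟩
  · funext k
    by_cases h : k ∈ box N
    · simp only [h0]
      rw [ext_mem N _ k h]
    · simp only [h0]
      rw [ext_not N _ k h, hc0 k h]
  · intro t k hk
    exact ext_not N _ k hk
  · intro k hk t ht
    have h2 := h1 t ht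
    rw [hasDerivWithinAt_pi] at h2
    have h3 := h2 ⟨k, hk⟩
    have h4 : (fun t => ext N (α t) k) = fun t => α t ⟨k, hk⟩ := by
      funext t
      exact ext_mem N _ k hk
    rw [h4]
    exact h3

end Pool.Agent.W136.IW.Ode
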